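import Pool.Agent.Helper69.MF.StB

/-! Module FCE of the project MF (MP_9583f0_gt): faces of the cones Y and T. -/

set_option autoImplicit false

namespace Pool.Agent.Helper24.MF

open Set Topology Filter MeasureTheory
open Pool.Agent.Helper31.CY Pool.Agent.Helper69.MF

private lemma pt0 (a b c : ℝ) : (pt a b c) 0 = a := by simp [pt]
private lemma pt1 (a b c : ℝ) : (pt a b c) 1 = b := by simp [pt]
private lemma pt2 (a b c : ℝ) : (pt a b c) 2 = c := by simp [pt]

private lemma dle (x y : E3) (i : Fin 3) : |x i - y i| ≤ dist x y := by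
  have h := PiLp.norm_apply_le (x - y) i
  rw [dist_eq_norm]
  exact h

private lemma dlt (x y : E3) (ε : ℝ) (hε : 0 < ε)
    (h : (x 0 - y 0) ^ 2 + (x 1 - y 1) ^ 2 + (x 2 - y 2) ^ 2 < ε ^ 2) : dist x y < ε := by
  rw [EuclideanSpace.dist_eq, Fin.sum_univ_three]
  rw [Real.sqrt_lt' hε]
  simp only [Real.dist_eq, sq_abs]
  exact h

private lemma s3 : Real.sqrt 3 ^ 2 = 3 := Real.sq_sqrt (by norm_num)
private lemma s3p : 0 < Real.sqrt 3 := Real.sqrt_pos.mpr (by norm_num)
private lemma s2 : (Real.sqrt 2 / 2) ^ 2 = 1 / 2 := by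
  rw [div_pow, Real.sq_sqrt (by norm_num)]
  norm_num
private lemma s2p : 0 < Real.sqrt 2 / 2 := by positivity

private lemma memY (x : E3) : x ∈ Ycone ↔ (x 1 = 0 ∧ 0 ≤ x 0) ∨
    (x 1 = -(Real.sqrt 3 * x 0) ∧ 0 ≤ x 1) ∨ (x 1 = Real.sqrt 3 * x 0 ∧ x 1 ≤ 0) := by
  have hs := s3p
  constructor
  · rintro ⟨t, ht, h | h | h⟩
    · rw [Prod.mk.injEq] at h
      left
      exact ⟨h.2, by rw [h.1]; exact ht⟩
    · rw [Prod.mk.injEq] at h
      right; left
      refine ⟨by rw [h.1, h.2]; ring, ?_⟩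
      rw [h.2]
      positivity
    · rw [Prod.mk.injEq] at h
      right; right
      refine ⟨by rw [h.1, h.2]; ring, ?_⟩
      rw [h.2]
      have : 0 ≤ Real.sqrt 3 / 2 * t := by positivity
      linarith
  · rintro (⟨h1, h2⟩ | ⟨h1, h2⟩ | ⟨h1, h2⟩)
    · exact ⟨x 0, h2, Or.inl (by rw [h1])⟩
    · have h3 : x 0 ≤ 0 := by
        by_contra hc
        push Not at hc
        have : 0 < Real.sqrt 3 * x 0 := mul_pos hs hc
        linarith
      refine ⟨-2 * x 0, by linarith, Or.inr (Or.inl ?_)⟩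
      rw [Prod.mk.injEq]
      refine ⟨by ring, ?_⟩
      rw [h1]
      ring
    · have h3 : x 0 ≤ 0 := by
        by_contra hc
        push Not at hc
        have : 0 < Real.sqrt 3 * x 0 := mul_pos hs hc
        linarith
      refine ⟨-2 * x 0, by linarith, Or.inr (Or.inr ?_)⟩
      rw [Prod.mk.injEq]
      refine ⟨by ring, ?_⟩
      rw [h1]
      ring

private def FY : Fin 3 → Set E3
  | 0 => {x | x 1 = 0 ∧ 0 < x 0}
  | 1 => {x | x 1 = -(Real.sqrt 3 * x 0) ∧ 0 < x 1}
  | 2 => {x | x 1 = Real.sqrt 3 * x 0 ∧ x 1 < 0}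

private noncomputable def NY : Fin 3 → E3
  | 0 => pt 0 1 0
  | 1 => pt (-(Real.sqrt 3 / 2)) (-(1 / 2)) 0
  | 2 => pt (Real.sqrt 3 / 2) (-(1 / 2)) 0

private lemma memT (x : E3) : x ∈ Tcone ↔ (x 1 = x 2 ∧ -x 0 ≤ x 1 ∧ x 1 ≤ x 0) ∨
    (x 0 = x 2 ∧ -x 1 ≤ x 0 ∧ x 0 ≤ x 1) ∨ (x 0 = x 1 ∧ -x 2 ≤ x 0 ∧ x 0 ≤ x 2) ∨
    (x 1 = -x 0 ∧ x 2 ≤ x 0 ∧ x 0 ≤ -x 2) ∨ (x 2 = -x 0 ∧ x 1 ≤ x 0 ∧ x 0 ≤ -x 1) ∨
    (x 2 = -x 1 ∧ x 0 ≤ x 1 ∧ x 1 ≤ -x 0) := by
  constructor
  · rintro ⟨i, j, hij, s, t, hs, ht, rfl⟩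
    fin_cases i <;> fin_cases j <;> first
      | exact absurd rfl hij
      | (simp only [tv, pt, Fin.zero_eta, Fin.mk_one, Fin.reduceFinMk, Matrix.cons_val, PiLp.add_apply,
          PiLp.smul_apply, smul_eq_mul, Matrix.cons_val_zero, Matrix.cons_val_one]
         first
          | exact Or.inl ⟨by first | exact trivial | linarith, by linarith, by linarith⟩
          | exact Or.inr (Or.inl ⟨by first | exact trivial | linarith, by linarith, by linarith⟩)
          | exact Or.inr (Or.inr (Or.inl ⟨by first | exact trivial | linarith, by linarith, by linarith⟩))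
          | exact Or.inr (Or.inr (Or.inr (Or.inl ⟨by first | exact trivial | linarith, by linarith, by linarith⟩)))
          | exact Or.inr (Or.inr (Or.inr (Or.inr (Or.inl ⟨by first | exact trivial | linarith, by linarith, by linarith⟩))))
          | exact Or.inr (Or.inr (Or.inr (Or.inr (Or.inr ⟨by first | exact trivial | linarith, by linarith, by linarith⟩)))))
  · rintro (⟨h1, h2, h3⟩ | ⟨h1, h2, h3⟩ | ⟨h1, h2, h3⟩ | ⟨h1, h2, h3⟩ | ⟨h1, h2, h3⟩ | ⟨h1, h2, h3⟩)
    · refine ⟨0, 1, by decide, (x 0 + x 1) / 2, (x 0 - x 1) / 2, by linarith, by linarith, ?_⟩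
      ext k
      fin_cases k <;> simp [tv, pt] <;> linarith
    · refine ⟨0, 2, by decide, (x 1 + x 0) / 2, (x 1 - x 0) / 2, by linarith, by linarith, ?_⟩
      ext k
      fin_cases k <;> simp [tv, pt] <;> linarith
    · refine ⟨0, 3, by decide, (x 2 + x 0) / 2, (x 2 - x 0) / 2, by linarith, by linarith, ?_⟩
      ext k
      fin_cases k <;> simp [tv, pt] <;> linarith
    · refine ⟨1, 2, by decide, (-x 2 + x 0) / 2, (-x 2 - x 0) / 2, by linarith, by linarith, ?_⟩
      ext k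
      fin_cases k <;> simp [tv, pt] <;> linarith
    · refine ⟨1, 3, by decide, (-x 1 + x 0) / 2, (-x 1 - x 0) / 2, by linarith, by linarith, ?_⟩
      ext k
      fin_cases k <;> simp [tv, pt] <;> linarith
    · refine ⟨2, 3, by decide, (-x 0 + x 1) / 2, (-x 0 - x 1) / 2, by linarith, by linarith, ?_⟩
      ext k
      fin_cases k <;> simp [tv, pt] <;> linarith

private def FT : Fin 6 → Set E3
  | 0 => {x | x 1 = x 2 ∧ -x 0 < x 1 ∧ x 1 < x 0}
  | 1 => {x | x 0 = x 2 ∧ -x 1 < x 0 ∧ x 0 < x 1}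
  | 2 => {x | x 0 = x 1 ∧ -x 2 < x 0 ∧ x 0 < x 2}
  | 3 => {x | x 1 = -x 0 ∧ x 2 < x 0 ∧ x 0 < -x 2}
  | 4 => {x | x 2 = -x 0 ∧ x 1 < x 0 ∧ x 0 < -x 1}
  | 5 => {x | x 2 = -x 1 ∧ x 0 < x 1 ∧ x 1 < -x 0}

private noncomputable def NT : Fin 6 → E3
  | 0 => pt 0 (Real.sqrt 2 / 2) (-(Real.sqrt 2 / 2))
  | 1 => pt (Real.sqrt 2 / 2) 0 (-(Real.sqrt 2 / 2))
  | 2 => pt (Real.sqrt 2 / 2) (-(Real.sqrt 2 / 2)) 0
  | 3 => pt (Real.sqrt 2 / 2) (Real.sqrt 2 / 2) 0
  | 4 => pt (Real.sqrt 2 / 2) 0 (Real.sqrt 2 / 2)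
  | 5 => pt 0 (Real.sqrt 2 / 2) (Real.sqrt 2 / 2)

private lemma nearY (i : Fin 3) (s ε : ℝ) (hε : 0 < ε) : ∃ x ∈ FY i, dist x (pt 0 0 s) < ε := by
  have hs := s3
  have hp := s3p
  have hd : 0 < ε / 2 := by linarith
  match i with
  | 0 =>
    refine ⟨pt (ε / 2) 0 s, ⟨by rw [pt1], by rw [pt0]; exact hd⟩, dlt _ _ _ hε ?_⟩
    simp only [pt0, pt1, pt2]
    nlinarith
  | 1 =>
    refine ⟨pt (-(ε / 4)) (Real.sqrt 3 * (ε / 4)) s, ⟨by rw [pt1, pt0]; ring, by rw [pt1]; positivity⟩,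
      dlt _ _ _ hε ?_⟩
    simp only [pt0, pt1, pt2]
    nlinarith
  | 2 =>
    refine ⟨pt (-(ε / 4)) (-(Real.sqrt 3 * (ε / 4))) s, ⟨by rw [pt1, pt0]; ring, ?_⟩,
      dlt _ _ _ hε ?_⟩
    · rw [pt1]
      have : 0 < Real.sqrt 3 * (ε / 4) := by positivity
      linarith
    · simp only [pt0, pt1, pt2]
      nlinarith

private lemma facesY : Faces Ycone 3 FY NY := by
  have hs := s3
  have hp := s3p
  refine ⟨?_, ?_, ?_, ?_, ?_⟩
  · intro i
    match i with
    | 0 => simp only [NY, dt, pt0, pt1, pt2]; norm_num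
    | 1 => simp only [NY, dt, pt0, pt1, pt2]; nlinarith
    | 2 => simp only [NY, dt, pt0, pt1, pt2]; nlinarith
  · intro i y hy
    match i, hy with
    | 0, ⟨h1, h2⟩ =>
      refine ⟨(memY y).mpr (Or.inl ⟨h1, h2.le⟩), y 0, h2, fun x hx => ?_⟩
      have hx0 : 0 < x 0 := by
        have := (abs_lt.mp ((dle x y 0).trans_lt hx)).1
        linarith
      rw [memY]
      simp only [NY, dt, pt0, pt1, pt2]
      constructor
      · rintro (h | h | h)
        · rw [h.1]; ring
        · exfalso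
          have : 0 < Real.sqrt 3 * x 0 := mul_pos hp hx0
          linarith [h.1, h.2]
        · exfalso
          have : 0 < Real.sqrt 3 * x 0 := mul_pos hp hx0
          linarith [h.1, h.2]
      · intro h
        exact Or.inl ⟨by linarith, hx0.le⟩
    | 1, ⟨h1, h2⟩ =>
      refine ⟨(memY y).mpr (Or.inr (Or.inl ⟨h1, h2.le⟩)), y 1, h2, fun x hx => ?_⟩
      have hx1 : 0 < x 1 := by
        have := (abs_lt.mp ((dle x y 1).trans_lt hx)).1
        linarith
      rw [memY]
      simp only [NY, dt, pt0, pt1, pt2]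
      constructor
      · rintro (h | h | h)
        · exact absurd h.1 hx1.ne'
        · rw [h.1]; ring
        · exact absurd h.2 (not_le.mpr hx1)
      · intro h
        exact Or.inr (Or.inl ⟨by linarith, hx1.le⟩)
    | 2, ⟨h1, h2⟩ =>
      refine ⟨(memY y).mpr (Or.inr (Or.inr ⟨h1, h2.le⟩)), -y 1, by linarith, fun x hx => ?_⟩
      have hx1 : x 1 < 0 := by
        have := (abs_lt.mp ((dle x y 1).trans_lt hx)).2
        linarith
      rw [memY]
      simp only [NY, dt, pt0, pt1, pt2]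
      constructor
      · rintro (h | h | h)
        · exact absurd h.1 hx1.ne
        · exact absurd h.2 (not_le.mpr hx1)
        · rw [h.1]; ring
      · intro h
        exact Or.inr (Or.inr ⟨by linarith, hx1.le⟩)
  · intro y hy ε hε
    have hd : 0 < ε / 2 := by linarith
    rcases (memY y).mp hy with ⟨h1, h2⟩ | ⟨h1, h2⟩ | ⟨h1, h2⟩
    · refine ⟨0, pt (y 0 + ε / 2) (y 1) (y 2), ⟨by rw [pt1]; exact h1, by rw [pt0]; linarith⟩,
        dlt _ _ _ hε ?_⟩
      simp only [pt0, pt1, pt2]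
      nlinarith
    · refine ⟨1, pt (y 0 - ε / 4) (y 1 + Real.sqrt 3 * (ε / 4)) (y 2),
        ⟨by rw [pt1, pt0, h1]; ring, by rw [pt1]; positivity⟩, dlt _ _ _ hε ?_⟩
      simp only [pt0, pt1, pt2]
      nlinarith
    · refine ⟨2, pt (y 0 - ε / 4) (y 1 - Real.sqrt 3 * (ε / 4)) (y 2),
        ⟨by rw [pt1, pt0, h1]; ring, ?_⟩, dlt _ _ _ hε ?_⟩
      · rw [pt1]
        have : 0 < Real.sqrt 3 * (ε / 4) := by positivity
        linarith
      · simp only [pt0, pt1, pt2]
        nlinarith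
  · intro i ε hε
    obtain ⟨x, hx, hd⟩ := nearY i 0 ε hε
    refine ⟨x, hx, ?_⟩
    have h0 : (pt 0 0 0 : E3) = 0 := by
      ext k
      fin_cases k <;> simp [pt]
    rwa [h0] at hd
  · intro i
    match i with
    | 0 =>
      refine ⟨1, ?_⟩
      have h : dt (NY 0) (NY 1) = -(1 / 2) := by simp only [NY, dt, pt0, pt1, pt2]; ring
      rw [h]
      norm_num
    | 1 =>
      refine ⟨0, ?_⟩
      have h : dt (NY 1) (NY 0) = -(1 / 2) := by simp only [NY, dt, pt0, pt1, pt2]; ring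
      rw [h]
      norm_num
    | 2 =>
      refine ⟨0, ?_⟩
      have h : dt (NY 2) (NY 0) = -(1 / 2) := by simp only [NY, dt, pt0, pt1, pt2]; ring
      rw [h]
      norm_num

private lemma facesT : Faces Tcone 6 FT NT := by
  have hs := s2
  have hp := s2p
  refine ⟨?_, ?_, ?_, ?_, ?_⟩
  · intro i
    match i with
    | 0 => simp only [NT, dt, pt0, pt1, pt2]; nlinarith
    | 1 => simp only [NT, dt, pt0, pt1, pt2]; nlinarith
    | 2 => simp only [NT, dt, pt0, pt1, pt2]; nlinarith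
    | 3 => simp only [NT, dt, pt0, pt1, pt2]; nlinarith
    | 4 => simp only [NT, dt, pt0, pt1, pt2]; nlinarith
    | 5 => simp only [NT, dt, pt0, pt1, pt2]; nlinarith
  · -- near a point of an open face
    have key : ∀ a b : ℝ, Real.sqrt 2 / 2 * (a - b) = 0 → a = b := by
      intro a b h
      rcases mul_eq_zero.mp h with h | h
      · exact absurd h hp.ne'
      · linarith
    intro i y hy
    match i, hy with
    | 0, ⟨h1, h2, h3⟩ =>
      refine ⟨(memT y).mpr (Or.inl ⟨h1, h2.le, h3.le⟩), min ((y 0 - y 1) / 2) ((y 0 + y 1) / 2),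
        lt_min (by linarith) (by linarith), fun x hx => ?_⟩
      have e0 := abs_lt.mp ((dle x y 0).trans_lt hx)
      have e1 := abs_lt.mp ((dle x y 1).trans_lt hx)
      have e2 := abs_lt.mp ((dle x y 2).trans_lt hx)
      have m1 := min_le_left ((y 0 - y 1) / 2) ((y 0 + y 1) / 2)
      have m2 := min_le_right ((y 0 - y 1) / 2) ((y 0 + y 1) / 2)
      have f1 : x 1 < x 0 := by linarith [e0.1, e1.2]
      have f2 : -x 0 < x 1 := by linarith [e0.1, e1.1]
      have f3 : x 2 < x 0 := by linarith [e0.1, e2.2]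
      have f4 : -x 0 < x 2 := by linarith [e0.1, e2.1]
      rw [memT]
      simp only [NT, dt, pt0, pt1, pt2]
      constructor
      · rintro (h | h | h | h | h | h)
        · rw [h.1]; ring
        · exfalso; linarith [h.1]
        · exfalso; linarith [h.1]
        · exfalso; linarith [h.1]
        · exfalso; linarith [h.1]
        · exfalso; linarith [h.2.1, h.2.2]
      · intro h
        exact Or.inl ⟨key _ _ (by linarith), f2.le, f1.le⟩
    | 1, ⟨h1, h2, h3⟩ =>
      refine ⟨(memT y).mpr (Or.inr (Or.inl ⟨h1, h2.le, h3.le⟩)), min ((y 1 - y 0) / 2) ((y 1 + y 0) / 2),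
        lt_min (by linarith) (by linarith), fun x hx => ?_⟩
      have e0 := abs_lt.mp ((dle x y 0).trans_lt hx)
      have e1 := abs_lt.mp ((dle x y 1).trans_lt hx)
      have e2 := abs_lt.mp ((dle x y 2).trans_lt hx)
      have m1 := min_le_left ((y 1 - y 0) / 2) ((y 1 + y 0) / 2)
      have m2 := min_le_right ((y 1 - y 0) / 2) ((y 1 + y 0) / 2)
      have f1 : x 0 < x 1 := by linarith [e1.1, e0.2]
      have f2 : -x 1 < x 0 := by linarith [e1.1, e0.1]
      have f3 : x 2 < x 1 := by linarith [e1.1, e2.2]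
      have f4 : -x 1 < x 2 := by linarith [e1.1, e2.1]
      rw [memT]
      simp only [NT, dt, pt0, pt1, pt2]
      constructor
      · rintro (h | h | h | h | h | h)
        · exfalso; linarith [h.1]
        · rw [h.1]; ring
        · exfalso; linarith [h.1]
        · exfalso; linarith [h.1]
        · exfalso; linarith [h.2.1, h.2.2]
        · exfalso; linarith [h.1]
      · intro h
        exact Or.inr (Or.inl ⟨key _ _ (by linarith), f2.le, f1.le⟩)
    | 2, ⟨h1, h2, h3⟩ =>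
      refine ⟨(memT y).mpr (Or.inr (Or.inr (Or.inl ⟨h1, h2.le, h3.le⟩))),
        min ((y 2 - y 0) / 2) ((y 2 + y 0) / 2),
        lt_min (by linarith) (by linarith), fun x hx => ?_⟩
      have e0 := abs_lt.mp ((dle x y 0).trans_lt hx)
      have e1 := abs_lt.mp ((dle x y 1).trans_lt hx)
      have e2 := abs_lt.mp ((dle x y 2).trans_lt hx)
      have m1 := min_le_left ((y 2 - y 0) / 2) ((y 2 + y 0) / 2)
      have m2 := min_le_right ((y 2 - y 0) / 2) ((y 2 + y 0) / 2)
      have f1 : x 0 < x 2 := by linarith [e2.1, e0.2]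
      have f2 : -x 2 < x 0 := by linarith [e2.1, e0.1]
      have f3 : x 1 < x 2 := by linarith [e2.1, e1.2]
      have f4 : -x 2 < x 1 := by linarith [e2.1, e1.1]
      rw [memT]
      simp only [NT, dt, pt0, pt1, pt2]
      constructor
      · rintro (h | h | h | h | h | h)
        · exfalso; linarith [h.1]
        · exfalso; linarith [h.1]
        · rw [h.1]; ring
        · exfalso; linarith [h.2.1, h.2.2]
        · exfalso; linarith [h.1]
        · exfalso; linarith [h.1]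
      · intro h
        exact Or.inr (Or.inr (Or.inl ⟨key _ _ (by linarith), f2.le, f1.le⟩))
    | 3, ⟨h1, h2, h3⟩ =>
      refine ⟨(memT y).mpr (Or.inr (Or.inr (Or.inr (Or.inl ⟨h1, h2.le, h3.le⟩)))),
        min ((-y 2 - y 0) / 2) ((-y 2 + y 0) / 2),
        lt_min (by linarith) (by linarith), fun x hx => ?_⟩
      have e0 := abs_lt.mp ((dle x y 0).trans_lt hx)
      have e1 := abs_lt.mp ((dle x y 1).trans_lt hx)
      have e2 := abs_lt.mp ((dle x y 2).trans_lt hx)
      have m1 := min_le_left ((-y 2 - y 0) / 2) ((-y 2 + y 0) / 2)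
      have m2 := min_le_right ((-y 2 - y 0) / 2) ((-y 2 + y 0) / 2)
      have f1 : x 0 < -x 2 := by linarith [e2.2, e0.2]
      have f2 : x 2 < x 0 := by linarith [e2.2, e0.1]
      have f3 : x 1 < -x 2 := by linarith [e2.2, e1.2]
      have f4 : x 2 < x 1 := by linarith [e2.2, e1.1]
      rw [memT]
      simp only [NT, dt, pt0, pt1, pt2]
      constructor
      · rintro (h | h | h | h | h | h)
        · exfalso; linarith [h.1]
        · exfalso; linarith [h.1]
        · exfalso; linarith [h.2.1, h.2.2]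
        · rw [h.1]; ring
        · exfalso; linarith [h.1]
        · exfalso; linarith [h.1]
      · intro h
        exact Or.inr (Or.inr (Or.inr (Or.inl ⟨key _ _ (by linarith), f2.le, f1.le⟩)))
    | 4, ⟨h1, h2, h3⟩ =>
      refine ⟨(memT y).mpr (Or.inr (Or.inr (Or.inr (Or.inr (Or.inl ⟨h1, h2.le, h3.le⟩))))),
        min ((-y 1 - y 0) / 2) ((-y 1 + y 0) / 2),
        lt_min (by linarith) (by linarith), fun x hx => ?_⟩
      have e0 := abs_lt.mp ((dle x y 0).trans_lt hx)
      have e1 := abs_lt.mp ((dle x y 1).trans_lt hx)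
      have e2 := abs_lt.mp ((dle x y 2).trans_lt hx)
      have m1 := min_le_left ((-y 1 - y 0) / 2) ((-y 1 + y 0) / 2)
      have m2 := min_le_right ((-y 1 - y 0) / 2) ((-y 1 + y 0) / 2)
      have f1 : x 0 < -x 1 := by linarith [e1.2, e0.2]
      have f2 : x 1 < x 0 := by linarith [e1.2, e0.1]
      have f3 : x 2 < -x 1 := by linarith [e1.2, e2.2]
      have f4 : x 1 < x 2 := by linarith [e1.2, e2.1]
      rw [memT]
      simp only [NT, dt, pt0, pt1, pt2]
      constructor
      · rintro (h | h | h | h | h | h)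
        · exfalso; linarith [h.1]
        · exfalso; linarith [h.2.1, h.2.2]
        · exfalso; linarith [h.1]
        · exfalso; linarith [h.1]
        · rw [h.1]; ring
        · exfalso; linarith [h.1]
      · intro h
        exact Or.inr (Or.inr (Or.inr (Or.inr (Or.inl ⟨key _ _ (by linarith), f2.le, f1.le⟩))))
    | 5, ⟨h1, h2, h3⟩ =>
      refine ⟨(memT y).mpr (Or.inr (Or.inr (Or.inr (Or.inr (Or.inr ⟨h1, h2.le, h3.le⟩))))),
        min ((-y 0 - y 1) / 2) ((-y 0 + y 1) / 2),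
        lt_min (by linarith) (by linarith), fun x hx => ?_⟩
      have e0 := abs_lt.mp ((dle x y 0).trans_lt hx)
      have e1 := abs_lt.mp ((dle x y 1).trans_lt hx)
      have e2 := abs_lt.mp ((dle x y 2).trans_lt hx)
      have m1 := min_le_left ((-y 0 - y 1) / 2) ((-y 0 + y 1) / 2)
      have m2 := min_le_right ((-y 0 - y 1) / 2) ((-y 0 + y 1) / 2)
      have f1 : x 1 < -x 0 := by linarith [e0.2, e1.2]
      have f2 : x 0 < x 1 := by linarith [e0.2, e1.1]
      have f3 : x 2 < -x 0 := by linarith [e0.2, e2.2]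
      have f4 : x 0 < x 2 := by linarith [e0.2, e2.1]
      rw [memT]
      simp only [NT, dt, pt0, pt1, pt2]
      constructor
      · rintro (h | h | h | h | h | h)
        · exfalso; linarith [h.2.1, h.2.2]
        · exfalso; linarith [h.1]
        · exfalso; linarith [h.1]
        · exfalso; linarith [h.1]
        · exfalso; linarith [h.1]
        · rw [h.1]; ring
      · intro h
        exact Or.inr (Or.inr (Or.inr (Or.inr (Or.inr ⟨key _ _ (by linarith), f2.le, f1.le⟩))))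
  · intro y hy ε hε
    rcases (memT y).mp hy with ⟨h1, h2, h3⟩ | ⟨h1, h2, h3⟩ | ⟨h1, h2, h3⟩ | ⟨h1, h2, h3⟩ | ⟨h1, h2, h3⟩ |
      ⟨h1, h2, h3⟩
    · refine ⟨0, pt (y 0 + ε / 2) (y 1) (y 2), ?_, dlt _ _ _ hε ?_⟩
      · simp only [FT, mem_ofPred_eq, pt0, pt1, pt2]
        exact ⟨h1, by linarith, by linarith⟩
      · simp only [pt0, pt1, pt2]
        nlinarith
    · refine ⟨1, pt (y 0) (y 1 + ε / 2) (y 2), ?_, dlt _ _ _ hε ?_⟩
      · simp only [FT, mem_ofPred_eq, pt0, pt1, pt2]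
        exact ⟨h1, by linarith, by linarith⟩
      · simp only [pt0, pt1, pt2]
        nlinarith
    · refine ⟨2, pt (y 0) (y 1) (y 2 + ε / 2), ?_, dlt _ _ _ hε ?_⟩
      · simp only [FT, mem_ofPred_eq, pt0, pt1, pt2]
        exact ⟨h1, by linarith, by linarith⟩
      · simp only [pt0, pt1, pt2]
        nlinarith
    · refine ⟨3, pt (y 0) (y 1) (y 2 - ε / 2), ?_, dlt _ _ _ hε ?_⟩
      · simp only [FT, mem_ofPred_eq, pt0, pt1, pt2]
        exact ⟨h1, by linarith, by linarith⟩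
      · simp only [pt0, pt1, pt2]
        nlinarith
    · refine ⟨4, pt (y 0) (y 1 - ε / 2) (y 2), ?_, dlt _ _ _ hε ?_⟩
      · simp only [FT, mem_ofPred_eq, pt0, pt1, pt2]
        exact ⟨h1, by linarith, by linarith⟩
      · simp only [pt0, pt1, pt2]
        nlinarith
    · refine ⟨5, pt (y 0 - ε / 2) (y 1) (y 2), ?_, dlt _ _ _ hε ?_⟩
      · simp only [FT, mem_ofPred_eq, pt0, pt1, pt2]
        exact ⟨h1, by linarith, by linarith⟩
      · simp only [pt0, pt1, pt2]
        nlinarith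
  · intro i ε hε
    have z0 : (0 : E3) 0 = 0 := rfl
    have z1 : (0 : E3) 1 = 0 := rfl
    have z2 : (0 : E3) 2 = 0 := rfl
    match i with
    | 0 =>
      refine ⟨pt (ε / 2) 0 0, ?_, dlt _ _ _ hε ?_⟩
      · simp only [FT, mem_ofPred_eq, pt0, pt1, pt2]
        exact ⟨trivial, by linarith, by linarith⟩
      · simp only [pt0, pt1, pt2, z0, z1, z2]
        nlinarith
    | 1 =>
      refine ⟨pt 0 (ε / 2) 0, ?_, dlt _ _ _ hε ?_⟩
      · simp only [FT, mem_ofPred_eq, pt0, pt1, pt2]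
        exact ⟨trivial, by linarith, by linarith⟩
      · simp only [pt0, pt1, pt2, z0, z1, z2]
        nlinarith
    | 2 =>
      refine ⟨pt 0 0 (ε / 2), ?_, dlt _ _ _ hε ?_⟩
      · simp only [FT, mem_ofPred_eq, pt0, pt1, pt2]
        exact ⟨trivial, by linarith, by linarith⟩
      · simp only [pt0, pt1, pt2, z0, z1, z2]
        nlinarith
    | 3 =>
      refine ⟨pt 0 0 (-(ε / 2)), ?_, dlt _ _ _ hε ?_⟩
      · simp only [FT, mem_ofPred_eq, pt0, pt1, pt2]
        exact ⟨by norm_num, by linarith, by linarith⟩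
      · simp only [pt0, pt1, pt2, z0, z1, z2]
        nlinarith
    | 4 =>
      refine ⟨pt 0 (-(ε / 2)) 0, ?_, dlt _ _ _ hε ?_⟩
      · simp only [FT, mem_ofPred_eq, pt0, pt1, pt2]
        exact ⟨by norm_num, by linarith, by linarith⟩
      · simp only [pt0, pt1, pt2, z0, z1, z2]
        nlinarith
    | 5 =>
      refine ⟨pt (-(ε / 2)) 0 0, ?_, dlt _ _ _ hε ?_⟩
      · simp only [FT, mem_ofPred_eq, pt0, pt1, pt2]
        exact ⟨by norm_num, by linarith, by linarith⟩
      · simp only [pt0, pt1, pt2, z0, z1, z2]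
        nlinarith
  · intro i
    match i with
    | 0 =>
      refine ⟨1, ?_⟩
      have h : dt (NT 0) (NT 1) = 1 / 2 := by simp only [NT, dt, pt0, pt1, pt2]; nlinarith
      rw [h]; norm_num
    | 1 =>
      refine ⟨0, ?_⟩
      have h : dt (NT 1) (NT 0) = 1 / 2 := by simp only [NT, dt, pt0, pt1, pt2]; nlinarith
      rw [h]; norm_num
    | 2 =>
      refine ⟨0, ?_⟩
      have h : dt (NT 2) (NT 0) = -(1 / 2) := by simp only [NT, dt, pt0, pt1, pt2]; nlinarith
      rw [h]; norm_num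
    | 3 =>
      refine ⟨0, ?_⟩
      have h : dt (NT 3) (NT 0) = 1 / 2 := by simp only [NT, dt, pt0, pt1, pt2]; nlinarith
      rw [h]; norm_num
    | 4 =>
      refine ⟨0, ?_⟩
      have h : dt (NT 4) (NT 0) = -(1 / 2) := by simp only [NT, dt, pt0, pt1, pt2]; nlinarith
      rw [h]; norm_num
    | 5 =>
      refine ⟨1, ?_⟩
      have h : dt (NT 5) (NT 1) = -(1 / 2) := by simp only [NT, dt, pt0, pt1, pt2]; nlinarith
      rw [h]; norm_num

theorem hFCE : StFCE := by
  refine ⟨⟨FY, NY, facesY, nearY, ?_⟩, FT, NT, facesT, ?_⟩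
  · intro v hv
    have h0 := hv 0
    have h1 := hv 1
    simp only [NY, dt, pt0, pt1, pt2] at h0 h1
    have hv1 : v 1 = 0 := by linarith
    refine ⟨?_, hv1⟩
    rw [hv1] at h1
    have h2 : Real.sqrt 3 * v 0 = 0 := by linarith
    exact (mul_eq_zero.mp h2).resolve_left s3p.ne'
  · intro v hv
    have h0 := hv 0
    have h1 := hv 1
    have h5 := hv 5
    simp only [NT, dt, pt0, pt1, pt2] at h0 h1 h5
    have hp := s2p.ne'
    have a0 : Real.sqrt 2 / 2 * (v 1 - v 2) = 0 := by linarith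
    have a1 : Real.sqrt 2 / 2 * (v 0 - v 2) = 0 := by linarith
    have a5 : Real.sqrt 2 / 2 * (v 1 + v 2) = 0 := by linarith
    have b0 := (mul_eq_zero.mp a0).resolve_left hp
    have b1 := (mul_eq_zero.mp a1).resolve_left hp
    have b5 := (mul_eq_zero.mp a5).resolve_left hp
    have c1 : v 1 = 0 := by linarith
    have c2 : v 2 = 0 := by linarith
    have c0 : v 0 = 0 := by linarith
    ext k
    fin_cases k
    · exact c0
    · exact c1
    · exact c2

end Pool.Agent.Helper24.MF
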